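import Pool.Agent.H207.BT.Stm5
import Pool.Agent.H747.HY211.CHO

/-!
# BT (helper207): S_RPL, all periodic points of Collet-Eckmann maps are repelling
-/

set_option autoImplicit false

open Topology Filter Metric Set MeasureTheory Polynomial

namespace Pool.Agent.H923.BT207

open Pool.Agent.H790R3.RB Pool.Agent.H211.HY Pool.Agent.H207.BT Pool.Agent.H747.HY211.CHO

namespace RPL

/-! ### Directions -/

theorem cr_tr {p q r : ℂ × ℂ} (hq : q ≠ 0) (h1 : cr p q = 0) (h2 : cr q r = 0) : cr p r = 0 := by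
  unfold cr at h1 h2 ⊢
  by_cases h : q.1 = 0
  · have h' : q.2 ≠ 0 := fun h' => hq (Prod.ext h h')
    have e : q.2 * (p.1 * r.2 - p.2 * r.1) = 0 := by
      linear_combination r.2 * h1 + p.2 * h2
    exact (mul_eq_zero.1 e).resolve_left h'
  · have e : q.1 * (p.1 * r.2 - p.2 * r.1) = 0 := by
      linear_combination r.1 * h1 + p.1 * h2
    exact (mul_eq_zero.1 e).resolve_left h

theorem cr_sw {p q : ℂ × ℂ} (h : cr p q = 0) : cr q p = 0 := by
  unfold cr at h ⊢
  linear_combination -h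

theorem cho_par {p q r : ℂ × ℂ} (hp : p ≠ 0) (hq : q ≠ 0) (h : cr p q = 0) :
    cho p r = cho q r := by
  obtain ⟨a, ha, rfl⟩ := (cr_eq_zero_iff hp hq).1 h
  have := cho_smul q r a 1 ha one_ne_zero
  rwa [one_smul] at this

theorem sdn_par {d : ℕ} (x : CV d) (hd : 2 ≤ d) (n : ℕ) {p q : ℂ × ℂ} (hp : p ≠ 0) (hq : q ≠ 0)
    (h : cr p q = 0) : sdn x n p = sdn x n q := by
  obtain ⟨a, ha, rfl⟩ := (cr_eq_zero_iff hp hq).1 h
  exact sdn_smul x hd n a ha q

theorem sd_par {d : ℕ} (x : CV d) (hd : 2 ≤ d) {p q : ℂ × ℂ} (hp : p ≠ 0) (hq : q ≠ 0)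
    (h : cr p q = 0) : sd x p = sd x q := by
  obtain ⟨a, ha, rfl⟩ := (cr_eq_zero_iff hp hq).1 h
  exact sd_smul x hd a ha q

theorem sdn_add {d : ℕ} (x : CV d) (a b : ℕ) (p : ℂ × ℂ) :
    sdn x (a + b) p = sdn x a p * sdn x b ((hF x)^[a] p) := by
  unfold sdn
  rw [Finset.prod_range_add]
  congr 1
  refine Finset.prod_congr rfl fun j _ => ?_
  rw [add_comm a j, Function.iterate_add_apply]

theorem sdn_nonneg {d : ℕ} (x : CV d) (n : ℕ) (p : ℂ × ℂ) : 0 ≤ sdn x n p := by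
  unfold sdn
  refine Finset.prod_nonneg fun j _ => ?_
  unfold sd
  have h1 := N2_nonneg ((hF x)^[j] p)
  have h2 := N2_nonneg (hF x ((hF x)^[j] p))
  positivity

theorem pos_min {ι : Type} [Finite ι] (f : ι → ℝ) (h : ∀ i, 0 < f i) :
    ∃ η > (0 : ℝ), ∀ i, η ≤ f i := by
  rcases isEmpty_or_nonempty ι with h0 | h0
  · exact ⟨1, one_pos, fun i => (h0.false i).elim⟩
  · obtain ⟨i, hi⟩ := Finite.exists_min f
    exact ⟨f i, h i, hi⟩

/-! ### Charts -/

theorem iot_ne (τ : Bool) (w : ℂ) : iot τ w ≠ 0 := by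
  cases τ
  · intro h
    exact one_ne_zero (congrArg Prod.fst h)
  · intro h
    exact one_ne_zero (congrArg Prod.snd h)

theorem zc_le {p : ℂ × ℂ} : ‖zc p‖ ≤ 1 := by
  unfold zc lc tau
  by_cases h : ‖p.1‖ ≤ ‖p.2‖
  · rw [if_pos (by simpa using h), norm_div]
    exact div_le_one_of_le₀ h (norm_nonneg _)
  · rw [if_neg (by simpa using h), norm_div]
    push Not at h
    exact div_le_one_of_le₀ h.le (norm_nonneg _)

theorem cr_zc {p : ℂ × ℂ} (hp : p ≠ 0) : cr p (iot (tau p) (zc p)) = 0 := by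
  unfold zc lc tau iot cr
  by_cases h : ‖p.1‖ ≤ ‖p.2‖
  · have h2 : p.2 ≠ 0 := by
      intro h2
      rw [h2, norm_zero] at h
      exact hp (Prod.ext (norm_le_zero_iff.1 h) h2)
    rw [if_pos (by simpa using h), if_pos (by simpa using h)]
    field_simp
    ring
  · have h1 : p.1 ≠ 0 := by
      intro h1
      rw [h1, norm_zero] at h
      exact h (norm_nonneg _)
    rw [if_neg (by simpa using h), if_neg (by simpa using h)]
    field_simp
    ring

/-- the speed of a map parallel to a chart -/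
theorem spd_ge {F : ℂ → ℂ × ℂ} (τ : Bool) {y : ℂ} {r : ℝ} (hF : DifferentiableOn ℂ F (ball y r))
    (h0 : ∀ w ∈ ball y r, F w ≠ 0 ∧ cr (F w) (iot τ w) = 0) (hr : 0 < r) (hy : ‖y‖ ≤ 1) :
    1 / 2 ≤ spd F y := by
  have hu : y ∈ ball y r := mem_ball_self hr
  have hd : DifferentiableAt ℂ F y := hF.differentiableAt (isOpen_ball.mem_nhds hu)
  have h1 : HasDerivAt (fun w => (F w).1) (deriv F y).1 y :=
    (hasFDerivAt_fst (𝕜 := ℂ) (E := ℂ) (F := ℂ) (p := F y)).comp_hasDerivAt y hd.hasDerivAt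
  have h2 : HasDerivAt (fun w => (F w).2) (deriv F y).2 y :=
    (hasFDerivAt_snd (𝕜 := ℂ) (E := ℂ) (F := ℂ) (p := F y)).comp_hasDerivAt y hd.hasDerivAt
  have hN := Pool.Agent.H747.HY211.CHO.N2_pos (h0 y hu).1
  have key : ∀ b : ℂ, (‖b‖ * ‖y‖) ^ 2 ≤ ‖b‖ ^ 2 := fun b => by
    rw [mul_pow]
    exact mul_le_of_le_one_right (sq_nonneg _) (pow_le_one₀ (norm_nonneg _) hy)
  cases τ
  · have h3 : HasDerivAt (fun w => (F w).1 * w) ((deriv F y).1 * y + (F y).1 * 1) y :=
      h1.mul (hasDerivAt_id y)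
    have hpar : ∀ w, cr (F w) (iot false w) = 0 → (F w).2 = (F w).1 * w := by
      intro w hw
      have h5 : (F w).1 * w - (F w).2 * 1 = 0 := hw
      rw [mul_one] at h5
      exact (sub_eq_zero.1 h5).symm
    have h4 : (fun w => (F w).1 * w) =ᶠ[𝓝 y] (fun w => (F w).2) := by
      filter_upwards [isOpen_ball.mem_nhds hu] with w hw
      exact (hpar w (h0 w hw).2).symm
    have h5 : (deriv F y).2 = (deriv F y).1 * y + (F y).1 * 1 :=
      (h2.congr_of_eventuallyEq h4).unique h3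
    have h7 : (F y).2 = (F y).1 * y := hpar y (h0 y hu).2
    have h8 : cr (deriv F y) (F y) = -(F y).1 ^ 2 := by
      unfold cr
      rw [h5, h7]
      ring
    unfold spd
    rw [le_div_iff₀ hN, h8, norm_neg, norm_pow]
    unfold N2
    rw [h7, norm_mul]
    have := key (F y).1
    linarith
  · have h3 : HasDerivAt (fun w => (F w).2 * w) ((deriv F y).2 * y + (F y).2 * 1) y :=
      h2.mul (hasDerivAt_id y)
    have hpar : ∀ w, cr (F w) (iot true w) = 0 → (F w).1 = (F w).2 * w := by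
      intro w hw
      have h5 : (F w).1 * 1 - (F w).2 * w = 0 := hw
      rw [mul_one] at h5
      exact sub_eq_zero.1 h5
    have h4 : (fun w => (F w).2 * w) =ᶠ[𝓝 y] (fun w => (F w).1) := by
      filter_upwards [isOpen_ball.mem_nhds hu] with w hw
      exact (hpar w (h0 w hw).2).symm
    have h5 : (deriv F y).1 = (deriv F y).2 * y + (F y).2 * 1 :=
      (h1.congr_of_eventuallyEq h4).unique h3
    have h7 : (F y).1 = (F y).2 * y := hpar y (h0 y hu).2
    have h8 : cr (deriv F y) (F y) = (F y).2 ^ 2 := by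
      unfold cr
      rw [h5, h7]
      ring
    unfold spd
    rw [le_div_iff₀ hN, h8, norm_pow]
    unfold N2
    rw [h7, norm_mul]
    have := key (F y).2
    linarith

/-! ### The Cauchy estimate -/

/-- the hermitian product -/
noncomputable def ip (v p : ℂ × ℂ) : ℂ :=
  p.1 * (starRingEnd ℂ) v.1 + p.2 * (starRingEnd ℂ) v.2

theorem lagr (p v : ℂ × ℂ) : ‖cr p v‖ ^ 2 + ‖ip v p‖ ^ 2 = N2 p * N2 v := by
  unfold cr ip N2
  simp only [Complex.sq_norm, Complex.normSq_apply, Complex.sub_re, Complex.mul_re,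
    Complex.sub_im, Complex.mul_im, Complex.add_re, Complex.add_im, Complex.conj_re,
    Complex.conj_im]
  ring

theorem ip_self (v : ℂ × ℂ) : ip v v = ((N2 v : ℝ) : ℂ) := by
  unfold ip N2
  rw [Complex.mul_conj, Complex.mul_conj, Complex.normSq_eq_norm_sq, Complex.normSq_eq_norm_sq]
  push_cast
  ring

theorem quo_le {p v : ℂ × ℂ} (hp : p ≠ 0) (hv : v ≠ 0) {η : ℝ} (hη : η ≤ 1 / 2)
    (h : cho p v < η) : ip v p ≠ 0 ∧ ‖cr p v / ip v p‖ ≤ 2 * η := by
  have hD : 0 < N2 p * N2 v := mul_pos (Pool.Agent.H747.HY211.CHO.N2_pos hp)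
    (Pool.Agent.H747.HY211.CHO.N2_pos hv)
  have h0 : 0 ≤ cho p v := cho_nonneg p v
  have hη0 : 0 < η := lt_of_le_of_lt h0 h
  have e1 : ‖cr p v‖ ^ 2 = cho p v ^ 2 * (N2 p * N2 v) := by
    unfold cho
    rw [div_pow, Real.sq_sqrt hD.le, div_mul_cancel₀ _ hD.ne']
  have e2 : cho p v ^ 2 ≤ η ^ 2 := pow_le_pow_left₀ h0 h.le 2
  have e3 : η ^ 2 ≤ 1 / 4 := by nlinarith
  have e4 := lagr p v
  have e5 : ‖cr p v‖ ^ 2 ≤ η ^ 2 * (N2 p * N2 v) := by
    rw [e1]
    exact mul_le_mul_of_nonneg_right e2 hD.le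
  have e6 : (N2 p * N2 v) / 4 ≤ ‖ip v p‖ ^ 2 := by nlinarith
  have e7 : 0 < ‖ip v p‖ ^ 2 := by linarith
  have e8 : ip v p ≠ 0 := by
    intro h8
    rw [h8, norm_zero] at e7
    norm_num at e7
  refine ⟨e8, ?_⟩
  refine (sq_le_sq₀ (norm_nonneg _) (by positivity)).1 ?_
  rw [norm_div, div_pow, div_le_iff₀ e7]
  have e9 := mul_le_mul_of_nonneg_left e6 (by positivity : (0 : ℝ) ≤ 4 * η ^ 2)
  nlinarith

theorem ip_hasDerivAt {g : ℂ → ℂ × ℂ} {u : ℂ} (hg : DifferentiableAt ℂ g u) (v : ℂ × ℂ) :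
    HasDerivAt (fun w => ip v (g w)) (ip v (deriv g u)) u := by
  have h1 : HasDerivAt (fun w => (g w).1) (deriv g u).1 u :=
    (hasFDerivAt_fst (𝕜 := ℂ) (E := ℂ) (F := ℂ) (p := g u)).comp_hasDerivAt u hg.hasDerivAt
  have h2 : HasDerivAt (fun w => (g w).2) (deriv g u).2 u :=
    (hasFDerivAt_snd (𝕜 := ℂ) (E := ℂ) (F := ℂ) (p := g u)).comp_hasDerivAt u hg.hasDerivAt
  unfold ip
  exact (h1.mul_const _).add (h2.mul_const _)

theorem cr_hasDerivAt {g : ℂ → ℂ × ℂ} {u : ℂ} (hg : DifferentiableAt ℂ g u) (v : ℂ × ℂ) :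
    HasDerivAt (fun w => cr (g w) v) (cr (deriv g u) v) u := by
  have h1 : HasDerivAt (fun w => (g w).1) (deriv g u).1 u :=
    (hasFDerivAt_fst (𝕜 := ℂ) (E := ℂ) (F := ℂ) (p := g u)).comp_hasDerivAt u hg.hasDerivAt
  have h2 : HasDerivAt (fun w => (g w).2) (deriv g u).2 u :=
    (hasFDerivAt_snd (𝕜 := ℂ) (E := ℂ) (F := ℂ) (p := g u)).comp_hasDerivAt u hg.hasDerivAt
  unfold cr
  exact (h1.mul_const v.2).sub (h2.mul_const v.1)

theorem spd_small {g : ℂ → ℂ × ℂ} {y : ℂ} {r η : ℝ} (hr : 0 < r) (hη : η ≤ 1 / 2)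
    (hg : DifferentiableOn ℂ g (ball y r)) (h0 : ∀ w ∈ ball y r, g w ≠ 0)
    (hc : ∀ w ∈ ball y r, cho (g w) (g y) < η) : spd g y ≤ 2 * η / (r / 2) := by
  have hy : y ∈ ball y r := mem_ball_self hr
  have hgy := h0 y hy
  have hN := Pool.Agent.H747.HY211.CHO.N2_pos hgy
  have hq : ∀ w ∈ ball y r, ip (g y) (g w) ≠ 0 ∧ ‖cr (g w) (g y) / ip (g y) (g w)‖ ≤ 2 * η :=
    fun w hw => quo_le (h0 w hw) hgy hη (hc w hw)
  have hdf : DifferentiableOn ℂ (fun w => cr (g w) (g y) / ip (g y) (g w)) (ball y r) := by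
    intro w hw
    have hgw : DifferentiableAt ℂ g w := hg.differentiableAt (isOpen_ball.mem_nhds hw)
    exact ((cr_hasDerivAt hgw _).differentiableAt.div (ip_hasDerivAt hgw _).differentiableAt
      (hq w hw).1).differentiableWithinAt
  have hgy' : DifferentiableAt ℂ g y := hg.differentiableAt (isOpen_ball.mem_nhds hy)
  have hder := (cr_hasDerivAt hgy' (g y)).div (ip_hasDerivAt hgy' (g y)) (hq y hy).1
  have hcc : cr (g y) (g y) = 0 := by
    unfold cr
    ring
  have hcl : closedBall y (r / 2) ⊆ ball y r := closedBall_subset_ball (by linarith)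
  have hC := Complex.norm_deriv_le_of_forall_mem_sphere_norm_le (c := y) (R := r / 2)
    (C := 2 * η) (f := fun w => cr (g w) (g y) / ip (g y) (g w)) (by linarith)
    (hdf.diffContOnCl_ball hcl) (fun z hz => (hq z (hcl (sphere_subset_closedBall hz))).2)
  have e : deriv (fun w => cr (g w) (g y) / ip (g y) (g w)) y =
      cr (deriv g y) (g y) / ((N2 (g y) : ℝ) : ℂ) := by
    show deriv ((fun w => cr (g w) (g y)) / fun w => ip (g y) (g w)) y = _
    rw [hder.deriv, hcc, ip_self]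
    have : ((N2 (g y) : ℝ) : ℂ) ≠ 0 := by exact_mod_cast hN.ne'
    field_simp
    ring
  rw [e, norm_div, Complex.norm_real, Real.norm_eq_abs, abs_of_pos hN] at hC
  exact hC

end RPL

open RPL in
/-- All periodic points are repelling. -/
theorem t_RPL (hHITL : S_HITL) (hSHJ : S_SHJ) (hLEOJ : S_LEOJ) : S_RPL := by
  intro d k x c m hyp nrm fac p n hp hn hper
  have hd := hyp.hd
  have hx := hyp.nd
  have hd0 : 0 < d := by omega
  have leo := hLEOJ d x hd hx hyp.ce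
  have perN : ∀ N, cr ((hF x)^[n * N] p) p = 0 := by
    intro N
    induction N with
    | zero =>
      show cr p p = 0
      unfold cr
      ring
    | succ N ih =>
      have e : (hF x)^[n * (N + 1)] p = (hF x)^[n * N] ((hF x)^[n] p) := by
        rw [mul_add, mul_one, Function.iterate_add_apply]
      rw [e]
      exact cr_tr (hx.iter_ne _ hp) (cr_it x hd (n * N) _ _ hper) ih
  have sdnN : ∀ N, sdn x (n * N) p = sdn x n p ^ N := by
    intro N
    induction N with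
    | zero => simp [sdn]
    | succ N ih =>
      rw [mul_add, mul_one, sdn_add, ih, pow_succ,
        sdn_par x hd n (hx.iter_ne _ hp) hp (perN N)]
  have hcne : ∀ i, ((c i, 1) : ℂ × ℂ) ≠ 0 := fun i h => one_ne_zero (congrArg Prod.snd h)
  have hwc : ∀ i, wr x (c i, 1) = 0 := by
    intro i
    rw [fac.fac]
    have h1 : ∏ j, (c i - c j) ^ m j = 0 := by
      refine Finset.prod_eq_zero (Finset.mem_univ i) ?_
      rw [sub_self]
      exact zero_pow (by have := fac.pos i; omega)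
    rw [h1, mul_zero]
  have hnc : ∀ (l : ℕ) (i : Fin k), cr ((hF x)^[l] p) (c i, 1) ≠ 0 := by
    intro l i h
    have hlp := hx.iter_ne l hp
    have h1 : cr ((hF x)^[n] (c i, 1)) ((hF x)^[n] ((hF x)^[l] p)) = 0 :=
      cr_it x hd n _ _ (cr_sw h)
    have e : (hF x)^[n] ((hF x)^[l] p) = (hF x)^[l] ((hF x)^[n] p) := by
      rw [← Function.iterate_add_apply, add_comm, Function.iterate_add_apply]
    rw [e] at h1
    have h2 : cr ((hF x)^[l] ((hF x)^[n] p)) ((hF x)^[l] p) = 0 := cr_it x hd l _ _ hper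
    have h3 : cr ((hF x)^[n] (c i, 1)) (c i, 1) = 0 :=
      cr_tr hlp (cr_tr (hx.iter_ne l (hx.iter_ne n hp)) h1 h2) h
    have h4 : sd x ((hF x)^[n] (c i, 1)) = 0 := by
      rw [sd_par x hd (hx.iter_ne n (hcne i)) (hcne i) h3]
      unfold sd
      rw [hwc i, norm_zero, zero_mul, zero_div]
    have h5 : sdn x n (hF x (c i, 1)) = 0 := by
      unfold sdn
      refine Finset.prod_eq_zero (Finset.mem_range.2 (Nat.sub_lt hn one_pos)) ?_
      rw [← Function.iterate_succ_apply, Nat.succ_eq_add_one, (by omega : n - 1 + 1 = n)]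
      exact h4
    obtain ⟨C, hC, μ, hμ, hCE⟩ := hyp.ce (c i, 1) (hcne i) (hwc i)
    have h6 := hCE n
    rw [h5] at h6
    have : 0 < C * μ ^ n := by positivity
    linarith
  have hη : ∃ η > (0 : ℝ), ∀ (l : ℕ) (i : Fin k), η ≤ cho ((hF x)^[l] p) (c i, 1) := by
    obtain ⟨η, hη, hη'⟩ := pos_min (fun a : Fin n × Fin k => cho ((hF x)^[(a.1 : ℕ)] p) (c a.2, 1))
      (fun a => lt_of_le_of_ne (cho_nonneg _ _)
        (fun h => hnc _ _ ((cho_eq_zero (hx.iter_ne _ hp) (hcne _)).1 h.symm)))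
    refine ⟨η, hη, fun l => ?_⟩
    induction l using Nat.strong_induction_on with
    | _ l ih =>
      intro i
      by_cases hl : l < n
      · exact hη' (⟨l, hl⟩, i)
      · have e : l = (l - n) + n := by omega
        rw [e, Function.iterate_add_apply,
          cho_par (hx.iter_ne _ (hx.iter_ne _ hp)) (hx.iter_ne _ hp)
            (cr_it x hd (l - n) _ _ hper)]
        exact ih (l - n) (by omega) i
  obtain ⟨η₀, hη₀, hη₀'⟩ := hη
  obtain ⟨μ, hμ, c₀, hc₀, hgr, H⟩ := hHITL d k x c m hd hx hyp.ce nrm fac leo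
  obtain ⟨C, hC, R₁, hR₁, H⟩ := H ((1 + μ) / 2) (by linarith) (by linarith)
  obtain ⟨R₂, hR₂, HS⟩ := hSHJ d x hd hx hyp.ce leo
  obtain ⟨E, hE⟩ : ∃ E : ℝ, E = (min η₀ 1) ^ (2 * d - 1) := ⟨_, rfl⟩
  have hm1 : 0 < min η₀ 1 := lt_min hη₀ one_pos
  have hE0 : 0 < E := by
    rw [hE]
    positivity
  obtain ⟨R, hR⟩ : ∃ R : ℝ, R = min (min R₁ R₂) (min 1 (E * c₀ / (2 * C))) := ⟨_, rfl⟩
  have hR0 : 0 < R := by
    rw [hR]
    refine lt_min (lt_min hR₁ hR₂) (lt_min one_pos (by positivity))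
  have hRR₁ : R ≤ R₁ := by
    rw [hR]
    exact (min_le_left _ _).trans (min_le_left _ _)
  have hRR₂ : R ≤ R₂ := by
    rw [hR]
    exact (min_le_left _ _).trans (min_le_right _ _)
  have hRR3 : R ≤ 1 := by
    rw [hR]
    exact (min_le_right _ _).trans (min_le_left _ _)
  have hRR4 : C * R ≤ E * c₀ / 2 := by
    have h1 : R ≤ E * c₀ / (2 * C) := by
      rw [hR]
      exact (min_le_right _ _).trans (min_le_right _ _)
    calc C * R ≤ C * (E * c₀ / (2 * C)) := mul_le_mul_of_nonneg_left h1 hC.le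
      _ = E * c₀ / 2 := by field_simp
  have hbr : ∀ N, ∃ g, BrT x (n * N) (tau p) (zc p) R g ∧ cr (g (zc p)) p = 0 := by
    intro N
    have hpar : cr ((hF x)^[n * N] p) (iot (tau p) (zc p)) = 0 :=
      cr_tr hp (perN N) (cr_zc hp)
    rcases H R hR0 hRR₁ (n * N) (tau p) (zc p) p hp hpar with h | ⟨j, hj, i, -, h2⟩
    · exact h
    · exfalso
      have hmi : m i ≤ 2 * d - 2 := by
        rw [← fac.deg]
        exact Finset.single_le_sum (f := m) (fun _ _ => Nat.zero_le _) (Finset.mem_univ i)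
      have h3 : E ≤ cho ((hF x)^[n * N - 1 - j] p) (c i, 1) ^ (m i + 1) := by
        rw [hE]
        calc (min η₀ 1) ^ (2 * d - 1) ≤ (min η₀ 1) ^ (m i + 1) :=
              pow_le_pow_of_le_one hm1.le (min_le_right _ _) (by omega)
          _ ≤ _ := pow_le_pow_left₀ hm1.le ((min_le_left _ _).trans (hη₀' _ _)) _
      have hθ0 : 0 < ((1 + μ) / 2) ^ j := by
        have : 0 < (1 + μ) / 2 := by linarith
        positivity
      have h4 : c₀ * ((1 + μ) / 2) ^ j ≤ sdn x j (hF x (c i, 1)) := by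
        refine le_trans ?_ (hgr i j)
        exact mul_le_mul_of_nonneg_left
          (pow_le_pow_left₀ (by linarith) (by linarith) j) hc₀.le
      have h5 : E * (c₀ * ((1 + μ) / 2) ^ j) ≤ C * ((1 + μ) / 2) ^ j * R :=
        (mul_le_mul h3 h4 (by positivity) (hE0.le.trans h3)).trans h2
      have h6 : C * ((1 + μ) / 2) ^ j * R ≤ E * c₀ / 2 * ((1 + μ) / 2) ^ j := by
        calc C * ((1 + μ) / 2) ^ j * R = C * R * ((1 + μ) / 2) ^ j := by ring
          _ ≤ _ := mul_le_mul_of_nonneg_right hRR4 hθ0.le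
      have h7 : 0 < E * c₀ * ((1 + μ) / 2) ^ j := by positivity
      nlinarith
  obtain ⟨T, hT⟩ := HS (R / 128) (by positivity)
  obtain ⟨g, hg, hgp⟩ := hbr (T + 1)
  have hTn : T ≤ n * (T + 1) := by nlinarith
  have hg0 : ∀ w ∈ ball (zc p) R, g w ≠ 0 := fun w hw => (hg.2 w hw).1
  have hyR : zc p ∈ ball (zc p) R := mem_ball_self hR0
  have hsub : ball (zc p) (R / 8) ⊆ ball (zc p) R := ball_subset_ball (by linarith)
  have hsh : ∀ u ∈ ball (zc p) (R / 8), cho (g u) (g (zc p)) < R / 128 := fun u hu =>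
    hT (n * (T + 1)) hTn (tau p) (zc p) R g hR0 hRR₂ hg u hu (hyp.jul _ (hg0 u (hsub hu)))
  have hs1 : spd g (zc p) ≤ 2 * (R / 128) / (R / 8 / 2) :=
    spd_small (by positivity) (by linarith) (hg.1.mono hsub) (fun w hw => hg0 w (hsub hw)) hsh
  have hs2 : 2 * (R / 128) / (R / 8 / 2) = 1 / 4 := by
    field_simp
    norm_num
  rw [hs2] at hs1
  have hgd : DifferentiableAt ℂ g (zc p) := hg.1.differentiableAt (isOpen_ball.mem_nhds hyR)
  have hs3 := spd_iter x hd hx g (zc p) (n * (T + 1)) hgd (hg0 _ hyR)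
  rw [sdn_par x hd _ (hg0 _ hyR) hp hgp, sdnN] at hs3
  have hs4 : 1 / 2 ≤ spd (fun w => (hF x)^[n * (T + 1)] (g w)) (zc p) := by
    refine spd_ge (tau p) (r := R) ?_ (fun w hw => ⟨hx.iter_ne _ (hg0 w hw), (hg.2 w hw).2⟩) hR0
      zc_le
    exact (differentiable_iter x _).comp_differentiableOn hg.1
  by_contra hlt
  push Not at hlt
  have hs5 : sdn x n p ^ (T + 1) ≤ 1 := pow_le_one₀ (sdn_nonneg x n p) hlt
  have hs6 : 0 ≤ spd g (zc p) := by
    unfold spd
    have := N2_nonneg (g (zc p))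
    positivity
  rw [hs3] at hs4
  have hs7 : sdn x n p ^ (T + 1) * spd g (zc p) ≤ 1 * spd g (zc p) :=
    mul_le_mul_of_nonneg_right hs5 hs6
  linarith

end Pool.Agent.H923.BT207
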